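import Pool.Agent.Helper45.PQ.StA

/-!
# Project PQ (MP_a1f43d_co): module BIN, two more Caro-Wei bounds
-/

set_option autoImplicit false

open Module Classical
open scoped LinearAlgebra.Projectivization

namespace Pool.Agent.Helper99.PQ

open Pool.Agent.Helper45.PQ

universe u v

section main

variable {F : Type u} {V : Type v} [Field F] [AddCommGroup V] [Module F V]

private theorem swap (Q : QuadraticForm F V) (T H : Finset (ℙ F V)) (m : ℙ F V → ℕ) :
    ∑ P ∈ T, ∑ R ∈ H.filter (fun R => QuadraticMap.polar Q P.rep R.rep = 0), m R =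
      ∑ R ∈ H, m R * nu Q T R.rep := by
  have h1 : ∀ P ∈ T, ∑ R ∈ H.filter (fun R => QuadraticMap.polar Q P.rep R.rep = 0), m R =
      ∑ R ∈ H, if QuadraticMap.polar Q P.rep R.rep = 0 then m R else 0 := fun P _ =>
    Finset.sum_filter _ _
  rw [Finset.sum_congr rfl h1, Finset.sum_comm]
  apply Finset.sum_congr rfl
  intro R _
  have h2 : nu Q T R.rep = (T.filter (fun P => QuadraticMap.polar Q P.rep R.rep = 0)).card := by
    unfold nu
    congr 1
    apply Finset.filter_congr
    intro P _
    rw [QuadraticMap.polar_comm]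
  rw [h2, ← Finset.sum_filter, Finset.sum_const, smul_eq_mul, mul_comm]

/-- monotonicity -/
private theorem mono {A E n s : ℕ} (hs : s ^ 2 ≤ A * (s + E)) (hn : n ≤ s) :
    n ^ 2 ≤ A * (n + E) := by
  by_contra h
  rw [not_le] at h
  have h1 : A < n := by
    by_contra h2
    rw [not_lt] at h2
    have h3 : n ^ 2 ≤ A * n := by
      rw [pow_two]
      exact Nat.mul_le_mul_right n h2
    have h4 : A * n ≤ A * (n + E) := Nat.mul_le_mul_left A (Nat.le_add_right n E)
    omega
  zify at hs hn h h1
  have h5 : (0 : ℤ) ≤ ((s : ℤ) - n) * ((s : ℤ) + n - A) :=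
    mul_nonneg (by linarith) (by linarith [Int.natCast_nonneg s])
  nlinarith

end main

theorem hBIN (h1 : StCWS.{v}) (h2 : StDGT.{u, v}) (h3 : StRKA.{u, v}) : StBIN.{u, v} := by
  intro F _ _ V _ _ _ Q T H m h j c
  have hQ : ∃ x, Q x ≠ 0 := by
    by_contra hne
    push Not at hne
    have h4 := c.qd.mx ⊤ (fun x _ => hne x)
    rw [finrank_top, c.qd.hd] at h4
    omega
  obtain ⟨_, hdeg, _⟩ := h2 F V Q T H m h j c
  have base : ∀ (S : Finset (ℙ F V)) (E n : ℕ), S ⊆ T → n ≤ S.card →
      ∑ x ∈ S, (S.filter (fun y => y ≠ x ∧ QuadraticMap.polar Q x.rep y.rep = 0)).card ≤ E →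
      n ^ 2 ≤ (44 ^ h + 1) * (n + E) := by
    intro S E n hST hn hE
    obtain ⟨I, hIS, hI, hcard⟩ := h1 (ℙ F V) (fun x y => QuadraticMap.polar Q x.rep y.rep = 0)
      (fun x y hxy => by rw [QuadraticMap.polar_comm]; exact hxy) S E hE
    have hIc : I.card ≤ 44 ^ h + 1 := (h3 F V Q h c.hq c.h1).1 c.qd.hd hQ I
      (fun P hP => c.sT P (hST (hIS hP))) hI
    exact mono (hcard.trans (Nat.mul_le_mul_right _ hIc)) hn
  constructor
  · have h5 : (Nat.card F ^ 4) ^ 2 ≤ (44 ^ h + 1) *
        (Nat.card F ^ 4 + ∑ R ∈ H, m R * ((1 + m R) * Nat.card F ^ 3 + 1 + j)) := by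
      apply base T _ _ (Finset.Subset.refl T)
      · rw [c.cT]
        omega
      · calc ∑ x ∈ T, (T.filter (fun y => y ≠ x ∧ QuadraticMap.polar Q x.rep y.rep = 0)).card
            ≤ ∑ P ∈ T, ∑ R ∈ H.filter (fun R => QuadraticMap.polar Q P.rep R.rep = 0), m R :=
              Finset.sum_le_sum fun P hP => hdeg P hP
          _ = ∑ R ∈ H, m R * nu Q T R.rep := swap Q T H m
          _ ≤ _ := Finset.sum_le_sum fun R hR => Nat.mul_le_mul_left _ (c.up R hR)
    rw [← pow_mul] at h5
    exact h5
  · intro R hR μ hμ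
    apply base (T.filter (fun P => QuadraticMap.polar Q R.rep P.rep ≠ 0)) _ _
      (Finset.filter_subset _ _)
    · have h6 : nu Q T R.rep + (T.filter (fun P => QuadraticMap.polar Q R.rep P.rep ≠ 0)).card =
          T.card := by
        unfold nu
        exact Finset.card_filter_add_card_filter_not _
      have h7 := c.up R hR
      rw [c.cT] at h6
      have h8 : Nat.card F ^ 4 = μ * Nat.card F ^ 3 + (1 + m R) * Nat.card F ^ 3 := by
        rw [← add_mul, ← add_assoc, hμ]
        ring
      omega
    · calc ∑ x ∈ T.filter (fun P => QuadraticMap.polar Q R.rep P.rep ≠ 0),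
            ((T.filter (fun P => QuadraticMap.polar Q R.rep P.rep ≠ 0)).filter
              (fun y => y ≠ x ∧ QuadraticMap.polar Q x.rep y.rep = 0)).card
          ≤ ∑ P ∈ T.filter (fun P => QuadraticMap.polar Q R.rep P.rep ≠ 0),
              ∑ Z ∈ (H.erase R).filter (fun Z => QuadraticMap.polar Q P.rep Z.rep = 0), m Z := by
            apply Finset.sum_le_sum
            intro P hP
            obtain ⟨hPT, hPR⟩ := Finset.mem_filter.1 hP
            refine (Finset.card_le_card (Finset.filter_subset_filter _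
              (Finset.filter_subset _ _))).trans ((hdeg P hPT).trans (le_of_eq ?_))
            apply Finset.sum_congr _ fun _ _ => rfl
            ext Z
            rw [Finset.mem_filter, Finset.mem_filter, Finset.mem_erase]
            constructor
            · rintro ⟨h9, h10⟩
              refine ⟨⟨?_, h9⟩, h10⟩
              rintro rfl
              rw [QuadraticMap.polar_comm] at h10
              exact hPR h10
            · rintro ⟨⟨_, h9⟩, h10⟩
              exact ⟨h9, h10⟩
        _ ≤ ∑ P ∈ T,
              ∑ Z ∈ (H.erase R).filter (fun Z => QuadraticMap.polar Q P.rep Z.rep = 0), m Z :=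
            Finset.sum_le_sum_of_subset (Finset.filter_subset _ _)
        _ = ∑ Z ∈ H.erase R, m Z * nu Q T Z.rep := swap Q T (H.erase R) m
        _ ≤ _ := Finset.sum_le_sum fun Z hZ =>
            Nat.mul_le_mul_left _ (c.up Z (Finset.mem_of_mem_erase hZ))

end Pool.Agent.Helper99.PQ
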