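import Pool.Agent.Helper45.PQ.StB

/-!
# Project PQ (MP_a1f43d_co): module KSP, the five-dimensional section
-/

set_option autoImplicit false

open Module Classical
open scoped LinearAlgebra.Projectivization

namespace Pool.Agent.Helper99.PQ

open Pool.Agent.Helper45.PQ

universe u v

section main

variable {F : Type u} {V : Type v} [Field F] [AddCommGroup V] [Module F V]

private theorem pself {Q : QuadraticForm F V} {a : V} (h : Q a = 0) :
    QuadraticMap.polar Q a a = 0 := by
  rw [polar_self_two, h, mul_zero]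

/-- a singular vector `x'` completing `r, s, x` to two hyperbolic pairs -/
private theorem exists_x' (Q : QuadraticForm F V)
    (nd : ∀ x, (∀ y, QuadraticMap.polar Q x y = 0) → x = 0) {r s x : V} (hr : Q r = 0)
    (hs : Q s = 0) (hrs : QuadraticMap.polar Q r s = 1) (hx0 : x ≠ 0) (hx : Q x = 0)
    (hrx : QuadraticMap.polar Q r x = 0) (hsx : QuadraticMap.polar Q s x = 0) :
    ∃ x' : V, Q x' = 0 ∧ QuadraticMap.polar Q r x' = 0 ∧ QuadraticMap.polar Q s x' = 0 ∧
      QuadraticMap.polar Q x x' = 1 := by
  obtain ⟨v, hv⟩ : ∃ v, QuadraticMap.polar Q x v ≠ 0 := by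
    by_contra h
    push Not at h
    exact hx0 (nd x h)
  have hsr : QuadraticMap.polar Q s r = 1 := by rw [QuadraticMap.polar_comm]; exact hrs
  have hxr : QuadraticMap.polar Q x r = 0 := by rw [QuadraticMap.polar_comm]; exact hrx
  have hxs : QuadraticMap.polar Q x s = 0 := by rw [QuadraticMap.polar_comm]; exact hsx
  obtain ⟨w, hw⟩ : ∃ w, w = (QuadraticMap.polar Q x v)⁻¹ •
    (v + (-QuadraticMap.polar Q s v) • r + (-QuadraticMap.polar Q r v) • s) := ⟨_, rfl⟩
  have h1 : QuadraticMap.polar Q r w = 0 := by
    rw [hw, QuadraticMap.polar_smul_right, QuadraticMap.polar_add_right,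
      QuadraticMap.polar_add_right, QuadraticMap.polar_smul_right, QuadraticMap.polar_smul_right,
      pself hr, hrs]
    simp
  have h2 : QuadraticMap.polar Q s w = 0 := by
    rw [hw, QuadraticMap.polar_smul_right, QuadraticMap.polar_add_right,
      QuadraticMap.polar_add_right, QuadraticMap.polar_smul_right, QuadraticMap.polar_smul_right,
      pself hs, hsr]
    simp
  have h3 : QuadraticMap.polar Q x w = 1 := by
    rw [hw, QuadraticMap.polar_smul_right, QuadraticMap.polar_add_right,
      QuadraticMap.polar_add_right, QuadraticMap.polar_smul_right, QuadraticMap.polar_smul_right,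
      hxr, hxs]
    simp [hv]
  refine ⟨w + (-Q w) • x, ?_, ?_, ?_, ?_⟩
  · rw [QuadraticMap.map_add Q, QuadraticMap.map_smul, QuadraticMap.polar_smul_right, hx,
      QuadraticMap.polar_comm, h3]
    simp
  · rw [QuadraticMap.polar_add_right, QuadraticMap.polar_smul_right, h1, hrx]
    simp
  · rw [QuadraticMap.polar_add_right, QuadraticMap.polar_smul_right, h2, hsx]
    simp
  · rw [QuadraticMap.polar_add_right, QuadraticMap.polar_smul_right, h3, pself hx]
    simp

private theorem mem_K {Q : QuadraticForm F V} {r s x x' y : V} :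
    y ∈ prp Q r ⊓ prp Q s ⊓ prp Q x ⊓ prp Q x' ↔ QuadraticMap.polar Q r y = 0 ∧
      QuadraticMap.polar Q s y = 0 ∧ QuadraticMap.polar Q x y = 0 ∧
      QuadraticMap.polar Q x' y = 0 := by
  rw [Submodule.mem_inf, Submodule.mem_inf, Submodule.mem_inf, mem_prp, mem_prp, mem_prp, mem_prp]
  tauto

end main

theorem hKSP : StKSP.{u, v} := by
  intro F _ _ V _ _ _ Q r s x hQ hr hs hrs hx0 hx hrx hsx
  obtain ⟨x', hx', hrx', hsx', hxx'⟩ := exists_x' Q hQ.nd hr hs hrs hx0 hx hrx hsx
  have hsr : QuadraticMap.polar Q s r = 1 := by rw [QuadraticMap.polar_comm]; exact hrs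
  have hxr : QuadraticMap.polar Q x r = 0 := by rw [QuadraticMap.polar_comm]; exact hrx
  have hxs : QuadraticMap.polar Q x s = 0 := by rw [QuadraticMap.polar_comm]; exact hsx
  have hx'r : QuadraticMap.polar Q x' r = 0 := by rw [QuadraticMap.polar_comm]; exact hrx'
  have hx's : QuadraticMap.polar Q x' s = 0 := by rw [QuadraticMap.polar_comm]; exact hsx'
  have hx'x : QuadraticMap.polar Q x' x = 1 := by rw [QuadraticMap.polar_comm]; exact hxx'
  obtain ⟨K, hK⟩ : ∃ K, K = prp Q r ⊓ prp Q s ⊓ prp Q x ⊓ prp Q x' := ⟨_, rfl⟩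
  have hKm : ∀ y, y ∈ K ↔ QuadraticMap.polar Q r y = 0 ∧ QuadraticMap.polar Q s y = 0 ∧
      QuadraticMap.polar Q x y = 0 ∧ QuadraticMap.polar Q x' y = 0 := by
    intro y
    rw [hK]
    exact mem_K
  -- the dimension
  obtain ⟨Φ, hΦ⟩ : ∃ Φ : V →ₗ[F] F × F × F × F, ∀ v, Φ v = (QuadraticMap.polar Q r v,
      QuadraticMap.polar Q s v, QuadraticMap.polar Q x v, QuadraticMap.polar Q x' v) :=
    ⟨(QuadraticMap.polarBilin Q r).prod ((QuadraticMap.polarBilin Q s).prod
      ((QuadraticMap.polarBilin Q x).prod (QuadraticMap.polarBilin Q x'))), fun v => rfl⟩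
  have hker : LinearMap.ker Φ = K := by
    ext v
    rw [LinearMap.mem_ker, hΦ, hKm]
    simp only [Prod.mk_eq_zero]
  have hsurj : LinearMap.range Φ = ⊤ := by
    rw [LinearMap.range_eq_top]
    rintro ⟨a, b, c, d⟩
    refine ⟨b • r + a • s + d • x + c • x', ?_⟩
    rw [hΦ]
    simp only [QuadraticMap.polar_add_right, QuadraticMap.polar_smul_right, pself hr, pself hs,
      pself hx, pself hx', hrs, hsr, hrx, hxr, hsx, hxs, hrx', hx'r, hsx', hx's, hxx', hx'x]
    simp
  have hfin : finrank F K = 5 := by
    have h1 := LinearMap.finrank_range_add_finrank_ker Φ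
    rw [hsurj, finrank_top, hker, hQ.hd] at h1
    have h2 : finrank F (F × F × F × F) = 4 := by
      simp only [finrank_prod, finrank_self]
    omega
  -- decomposition
  have hdec : ∀ v : V, v + (-QuadraticMap.polar Q s v) • r + (-QuadraticMap.polar Q r v) • s +
      (-QuadraticMap.polar Q x' v) • x + (-QuadraticMap.polar Q x v) • x' ∈ K := by
    intro v
    rw [hKm]
    simp only [QuadraticMap.polar_add_right, QuadraticMap.polar_smul_right, pself hr, pself hs,
      pself hx, pself hx', hrs, hsr, hrx, hxr, hsx, hxs, hrx', hx'r, hsx', hx's, hxx', hx'x]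
    simp
  refine ⟨K, fun y hy => ⟨((hKm y).1 hy).1, ((hKm y).1 hy).2.1, ((hKm y).1 hy).2.2.1⟩, ?_, ?_⟩
  · intro y hy a b c h0
    obtain ⟨h1, h2, h3, h4⟩ := (hKm y).1 hy
    have ha : a = 0 := by
      have h5 := congrArg (QuadraticMap.polar Q s) h0
      rw [QuadraticMap.polar_add_right, QuadraticMap.polar_add_right, QuadraticMap.polar_add_right,
        QuadraticMap.polar_smul_right, QuadraticMap.polar_smul_right,
        QuadraticMap.polar_smul_right, h2, hsr, pself hs, hsx, QuadraticMap.polar_zero_right] at h5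
      simpa using h5
    have hb : b = 0 := by
      have h5 := congrArg (QuadraticMap.polar Q r) h0
      rw [QuadraticMap.polar_add_right, QuadraticMap.polar_add_right, QuadraticMap.polar_add_right,
        QuadraticMap.polar_smul_right, QuadraticMap.polar_smul_right,
        QuadraticMap.polar_smul_right, h1, hrs, pself hr, hrx, QuadraticMap.polar_zero_right] at h5
      simpa using h5
    have hc : c = 0 := by
      have h5 := congrArg (QuadraticMap.polar Q x') h0
      rw [QuadraticMap.polar_add_right, QuadraticMap.polar_add_right, QuadraticMap.polar_add_right,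
        QuadraticMap.polar_smul_right, QuadraticMap.polar_smul_right,
        QuadraticMap.polar_smul_right, h4, hx'r, hx's, hx'x, QuadraticMap.polar_zero_right] at h5
      simpa using h5
    subst ha hb hc
    refine ⟨?_, rfl, rfl, rfl⟩
    simpa using h0
  · have hpol : ∀ y z : K, QuadraticMap.polar (Q.comp K.subtype) y z =
        QuadraticMap.polar Q (y : V) (z : V) := fun y z => rfl
    have hext : ∀ U : Submodule F K, (∀ y ∈ U, (Q.comp K.subtype) y = 0) →
        ∃ G : Submodule F K, U ≤ G ∧ (∀ y ∈ G, (Q.comp K.subtype) y = 0) ∧ finrank F G = 2 := by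
      intro U hU
      have hU' : ∀ y ∈ U.map K.subtype, Q y = 0 := by
        rintro y ⟨z, hz, rfl⟩
        exact hU z hz
      have hUK : ∀ y ∈ U.map K.subtype, y ∈ K := by
        rintro y ⟨z, hz, rfl⟩
        exact z.2
      have h1 : ∀ y ∈ U.map K.subtype ⊔ Submodule.span F {r}, Q y = 0 :=
        sing_sup hU' hr fun y hy => ((hKm y).1 (hUK y hy)).1
      have h2 : ∀ y ∈ U.map K.subtype ⊔ Submodule.span F {r} ⊔ Submodule.span F {x}, Q y = 0 := by
        apply sing_sup h1 hx
        intro y hy
        obtain ⟨z, hz, w, hw, rfl⟩ := Submodule.mem_sup.1 hy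
        obtain ⟨c, rfl⟩ := Submodule.mem_span_singleton.1 hw
        rw [QuadraticMap.polar_add_right, QuadraticMap.polar_smul_right, hxr,
          ((hKm z).1 (hUK z hz)).2.2.1]
        simp
      obtain ⟨G0, hle, hG0, hG04⟩ := hQ.ext _ h2
      have hrG : r ∈ G0 := hle (Submodule.mem_sup_left (Submodule.mem_sup_right
        (Submodule.mem_span_singleton_self r)))
      have hxG : x ∈ G0 := hle (Submodule.mem_sup_right (Submodule.mem_span_singleton_self x))
      have hUG : U.map K.subtype ≤ G0 := le_trans (le_trans le_sup_left le_sup_left) hle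
      refine ⟨G0.comap K.subtype, ?_, fun y hy => hG0 _ hy, ?_⟩
      · intro y hy
        exact hUG ⟨y, hy, rfl⟩
      · obtain ⟨Ψ, hΨ⟩ : ∃ Ψ : G0 →ₗ[F] F × F, ∀ v : G0, Ψ v =
            (QuadraticMap.polar Q s (v : V), QuadraticMap.polar Q x' (v : V)) :=
          ⟨((QuadraticMap.polarBilin Q s).comp G0.subtype).prod
            ((QuadraticMap.polarBilin Q x').comp G0.subtype), fun v => rfl⟩
        have hs2 : LinearMap.range Ψ = ⊤ := by
          rw [LinearMap.range_eq_top]
          rintro ⟨a, b⟩
          refine ⟨a • ⟨r, hrG⟩ + b • ⟨x, hxG⟩, ?_⟩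
          rw [hΨ]
          change (QuadraticMap.polar Q s (a • r + b • x),
            QuadraticMap.polar Q x' (a • r + b • x)) = (a, b)
          simp only [QuadraticMap.polar_add_right, QuadraticMap.polar_smul_right, hsr, hsx, hx'r,
            hx'x]
          simp
        have h3 := LinearMap.finrank_range_add_finrank_ker Ψ
        rw [hs2, finrank_top, hG04] at h3
        have h4 : finrank F (F × F) = 2 := by
          simp only [finrank_prod, finrank_self]
        have h5 : (LinearMap.ker Ψ).map G0.subtype = K ⊓ G0 := by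
          ext v
          constructor
          · rintro ⟨z, hz, rfl⟩
            have hz' : Ψ z = 0 := hz
            rw [hΨ, Prod.mk_eq_zero] at hz'
            exact ⟨(hKm _).2 ⟨polar_zero hG0 hrG z.2, hz'.1, polar_zero hG0 hxG z.2, hz'.2⟩, z.2⟩
          · rintro ⟨hvK, hvG⟩
            refine ⟨⟨v, hvG⟩, ?_, rfl⟩
            change Ψ ⟨v, hvG⟩ = 0
            rw [hΨ, Prod.mk_eq_zero]
            exact ⟨((hKm v).1 hvK).2.1, ((hKm v).1 hvK).2.2.2⟩
        have h6 : finrank F (G0.comap K.subtype) = finrank F (LinearMap.ker Ψ) := by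
          rw [← Submodule.finrank_map_subtype_eq, Submodule.map_comap_subtype,
            ← h5, Submodule.finrank_map_subtype_eq]
        omega
    refine ⟨hfin, ?_, hext, ?_⟩
    · intro y hy
      obtain ⟨h1, h2, h3, h4⟩ := (hKm (y : V)).1 y.2
      apply Subtype.ext
      apply hQ.nd
      intro v
      have h5 := hy ⟨_, hdec v⟩
      rw [hpol] at h5
      have h1' : QuadraticMap.polar Q (y : V) r = 0 := by rw [QuadraticMap.polar_comm]; exact h1
      have h2' : QuadraticMap.polar Q (y : V) s = 0 := by rw [QuadraticMap.polar_comm]; exact h2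
      have h3' : QuadraticMap.polar Q (y : V) x = 0 := by rw [QuadraticMap.polar_comm]; exact h3
      have h4' : QuadraticMap.polar Q (y : V) x' = 0 := by rw [QuadraticMap.polar_comm]; exact h4
      simpa only [QuadraticMap.polar_add_right, QuadraticMap.polar_smul_right, h1', h2', h3', h4',
        smul_zero, add_zero] using h5
    · intro U hU
      obtain ⟨G, hUG, _, hG⟩ := hext U hU
      rw [← hG]
      exact Submodule.finrank_mono hUG

end Pool.Agent.Helper99.PQ
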